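import Mathlib

/-!
# SMITH, heights: multiplication by the degree on 2-power torsion

`dg m s` is a natural number, the degree of `s` modulo `2 ^ m`; `ds dg s a` is the multiple of `a` by
the degree of `s`, for `a` of 2-power order.
-/

set_option autoImplicit false

namespace Pool.Agent.SmH

variable {G A B : Type*} [Group G] [AddCommGroup A] [AddCommGroup B]

/-- `dg m s` is a homomorphism modulo `2 ^ m`, compatible for different `m`. -/
structure IsDeg (dg : ℕ → G → ℕ) : Prop where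
  mul : ∀ m s t, dg m (s * t) ≡ dg m s + dg m t [MOD 2 ^ m]
  succ : ∀ m s, dg (m + 1) s ≡ dg m s [MOD 2 ^ m]

theorem IsDeg.le {dg : ℕ → G → ℕ} (h : IsDeg dg) {i m : ℕ} (him : i ≤ m) (s : G) :
    dg m s ≡ dg i s [MOD 2 ^ i] := by
  obtain ⟨r, rfl⟩ := Nat.exists_eq_add_of_le him
  clear him
  induction r with
  | zero => rfl
  | succ r ih =>
    exact (Nat.ModEq.of_dvd (pow_dvd_pow 2 (Nat.le_add_right i r)) (h.succ (i + r) s)).trans ih

theorem nsmul_congr {a : A} {n i j : ℕ} (ha : n • a = 0) (h : i ≡ j [MOD n]) : i • a = j • a := by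
  have key : ∀ x y : ℕ, x ≤ y → x ≡ y [MOD n] → x • a = y • a := by
    intro x y hxy hm
    obtain ⟨c, hc⟩ := (Nat.modEq_iff_dvd' hxy).1 hm
    have : y = x + n * c := by omega
    rw [this, add_nsmul, mul_comm, mul_nsmul', ha, nsmul_zero, add_zero]
  rcases le_total i j with h1 | h1
  · exact key i j h1 h
  · exact (key j i h1 h.symm).symm

open Classical in
/-- The multiple of `a` by the degree of `s`. -/
noncomputable def ds (dg : ℕ → G → ℕ) (s : G) (a : A) : A :=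
  if h : ∃ m : ℕ, 2 ^ m • a = 0 then dg (Nat.find h) s • a else 0

variable {dg : ℕ → G → ℕ}

theorem ds_eq (hd : IsDeg dg) (s : G) {a : A} {m : ℕ} (ha : 2 ^ m • a = 0) :
    ds dg s a = dg m s • a := by
  classical
  have h : ∃ m : ℕ, 2 ^ m • a = 0 := ⟨m, ha⟩
  rw [ds, dif_pos h]
  exact (nsmul_congr (Nat.find_spec h) (hd.le (Nat.find_min' h ha) s)).symm

theorem pow_le {a : A} {i m : ℕ} (him : i ≤ m) (ha : 2 ^ i • a = 0) : 2 ^ m • a = 0 := by
  obtain ⟨r, rfl⟩ := Nat.exists_eq_add_of_le him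
  rw [pow_add, mul_comm, mul_nsmul', ha, nsmul_zero]

theorem ds_add (hd : IsDeg dg) (s : G) {a b : A} {m : ℕ} (ha : 2 ^ m • a = 0)
    (hb : 2 ^ m • b = 0) : ds dg s (a + b) = ds dg s a + ds dg s b := by
  rw [ds_eq hd s ha, ds_eq hd s hb, ds_eq hd s (m := m) (by rw [smul_add, ha, hb, add_zero]),
    smul_add]

theorem ds_zero (hd : IsDeg dg) (s : G) : ds dg s (0 : A) = 0 := by
  rw [ds_eq hd s (m := 0) (by rw [smul_zero]), smul_zero]

theorem ds_neg (hd : IsDeg dg) (s : G) {a : A} {m : ℕ} (ha : 2 ^ m • a = 0) :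
    ds dg s (-a) = -ds dg s a := by
  rw [ds_eq hd s ha, ds_eq hd s (m := m) (by rw [smul_neg, ha, neg_zero]), smul_neg]

theorem ds_sub (hd : IsDeg dg) (s : G) {a b : A} {m : ℕ} (ha : 2 ^ m • a = 0)
    (hb : 2 ^ m • b = 0) : ds dg s (a - b) = ds dg s a - ds dg s b := by
  rw [ds_eq hd s ha, ds_eq hd s hb, ds_eq hd s (m := m) (by rw [smul_sub, ha, hb, sub_zero]),
    smul_sub]

theorem ds_mul (hd : IsDeg dg) (s t : G) {a : A} {m : ℕ} (ha : 2 ^ m • a = 0) :
    ds dg (s * t) a = ds dg s a + ds dg t a := by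
  rw [ds_eq hd _ ha, ds_eq hd _ ha, ds_eq hd _ ha, ← add_nsmul]
  exact nsmul_congr ha (hd.mul m s t)

theorem map_ds (hd : IsDeg dg) (f : A →+ B) (s : G) {a : A} {m : ℕ} (ha : 2 ^ m • a = 0) :
    f (ds dg s a) = ds dg s (f a) := by
  rw [ds_eq hd s ha, ds_eq hd s (m := m) (by rw [← map_nsmul, ha, map_zero]), map_nsmul]

theorem pow_ds (hd : IsDeg dg) (s : G) {a : A} {m : ℕ} (ha : 2 ^ m • a = 0) :
    2 ^ m • ds dg s a = 0 := by
  rw [ds_eq hd s ha, smul_comm, ha, smul_zero]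

theorem ds_nsmul (hd : IsDeg dg) (s : G) (n : ℕ) {a : A} {m : ℕ} (ha : 2 ^ m • a = 0) :
    ds dg s (n • a) = n • ds dg s a := by
  rw [ds_eq hd s ha, ds_eq hd s (m := m) (by rw [smul_comm, ha, smul_zero]), smul_comm]

end Pool.Agent.SmH
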