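import Pool.Agent.Lib.SmJ.Sys
import Pool.Agent.Lib.SmH.Link.Deg

/-!
# SMITH, heights: Selmer cocycles of the module `V ⊗ Z[T]/T^2` with `s` acting by `(1 + deg(s) T) s`

`S.IsWSel dg chi j x y`: the pair `(x, y)` is a 2-finite cocycle of level `j`,
`x(st) = x(s) + s * x(t)`, `y(st) = y(s) + s * y(t) + deg(s) s * x(t)`, which is on every decomposition
group the coboundary of a pair `(Q, R)`: `x(s) = s * Q - Q`, `y(s) = s * R - R + deg(s) s * Q`.

`RecDeg`: reciprocity for 2-cocycles with values in `M` which are locally of the form `deg ∪ c`.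
-/

set_option autoImplicit false

namespace Pool.Agent.SmH

open Pool.Agent.SmJ

variable {G V V1 Pl : Type*} [Group G] [AddCommGroup V] [DistribMulAction G V]
  [AddCommGroup V1] [Module (ZMod 2) V1]

/-- The Selmer cocycles of level `j` of the module `V ⊗ Z[T]/T^2`. -/
structure IsWSel (S : Sys G V V1 Pl) (dg : ℕ → G → ℕ) (chi : G → ZMod 2) (j : ℕ) (x y : G → V) :
    Prop where
  xtf : S.TF x
  ytf : S.TF y
  xlev : ∀ s, (2 : ℕ) ^ j • x s = 0
  ylev : ∀ s, (2 : ℕ) ^ j • y s = 0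
  xcoc : ∀ s t, x (s * t) = x s + tw chi s (x t)
  ycoc : ∀ s t, y (s * t) = y s + tw chi s (y t) + ds dg s (tw chi s (x t))
  loc : ∀ v, ∃ Q R : V, ∀ s ∈ S.D v, x s = dl chi Q s ∧ y s = dl chi R s + ds dg s (tw chi s Q)

theorem IsWSel.sel {S : Sys G V V1 Pl} {dg : ℕ → G → ℕ} {chi : G → ZMod 2} {j : ℕ} {x y : G → V}
    (h : IsWSel S dg chi j x y) : S.IsSel chi j x :=
  ⟨h.xtf, h.xcoc, h.xlev, fun v => (h.loc v).imp fun _ hQ => hQ.imp (fun _ hR => hR) |>.elim
    fun _ hR s hs => (hR s hs).1⟩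

/-- Reciprocity: if a global 2-cocycle with values in `M` is `deg ∪ c_v` up to coboundaries on every
decomposition group, then the sum of the `deg(v) ord_v(c_v)` is zero. -/
def RecDeg (S : Sys G V V1 Pl) {M : Type*} [AddCommGroup M] [DistribMulAction G M]
    (dg : ℕ → G → ℕ) (deg : Pl → ℕ) (nm : Pl → (M →+ M)) : Prop :=
  ∀ (F : G → G → M) (c B : Pl → G → M), S.TF2 F →
    (∀ s t w, F s t + F (s * t) w = s • F t w + F s (t * w)) →
    (∀ v, S.TFOn (S.D v) (c v)) → (∀ v, S.TFOn (S.D v) (B v)) →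
    (∀ v, ∀ s ∈ S.D v, ∀ t ∈ S.D v, c v (s * t) = c v s + s • c v t) →
    (∀ v, ∀ s ∈ S.D v, ∀ t ∈ S.D v,
      F s t = ds dg s (s • c v t) + (B v s + s • B v t - B v (s * t))) →
    {v | c v (S.sg v) ≠ 0}.Finite →
    ∑ᶠ v, deg v • nm v (c v (S.sg v)) = 0

end Pool.Agent.SmH
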