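import Pool.Agent.Lib.SmJ.G.Crit
import Pool.Agent.Lib.SmH.Defs
import Pool.Agent.Lib.SmH.Link.Coc
import Pool.Agent.Lib.SmH.Link.WSel

/-!
# SMITH, heights: the link, counting

* `card_W_le`: the number of the Selmer cocycles `(x, y)` of the module `V ⊗ Z[T]/T^2` is at most
  `K * #SelZ * #{x}`.
* `card_Pr_le`: the number of the rigid Selmer elements is at most `K * #SelZ`.
-/

set_option autoImplicit false

namespace Pool.Agent.SmH

open Pool.Agent.SmJ

variable {G V V1 Pl M : Type*} [Group G] [AddCommGroup V] [DistribMulAction G V]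
  [AddCommGroup V1] [Module (ZMod 2) V1]
variable {S : Sys G V V1 Pl} {dg : ℕ → G → ℕ} {chi : G → ZMod 2}

/-- If elements of `A` with the same value of `f` differ by elements of `Z`, then
`#A ≤ #B * #Z`. -/
theorem card_le_fib {E B : Type*} [AddCommGroup E] [Finite B] (A Z : Set E) [Finite Z] (f : E → B)
    (hf : ∀ a ∈ A, ∀ a' ∈ A, f a = f a' → a - a' ∈ Z) :
    Finite A ∧ Nat.card A ≤ Nat.card B * Nat.card Z := by
  classical
  -- base points
  let b : B → E := fun β => if h : ∃ a ∈ A, f a = β then h.choose else 0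
  have hb : ∀ a ∈ A, b (f a) ∈ A ∧ f (b (f a)) = f a := fun a ha => by
    have h : ∃ a' ∈ A, f a' = f a := ⟨a, ha, rfl⟩
    have e : b (f a) = h.choose := dif_pos h
    rw [e]
    exact h.choose_spec
  let g : A → B × Z := fun a => (f a, ⟨(a : E) - b (f a), hf _ a.2 _ (hb a a.2).1 (hb a a.2).2.symm⟩)
  have hg : Function.Injective g := by
    intro a a' h
    have h1 : f (a : E) = f (a' : E) := congrArg Prod.fst h
    have h2 : (a : E) - b (f a) = (a' : E) - b (f a') := congrArg (fun p => ((Prod.snd p : Z) : E)) h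
    rw [h1] at h2
    exact Subtype.ext (sub_left_injective h2)
  refine ⟨Finite.of_injective g hg, ?_⟩
  rw [← Nat.card_prod]
  exact Nat.card_le_card_of_injective g hg

/-- The places with a condition on the degree part. -/
theorem finT (h : S.Ok) (hchi : S.HomG chi) :
    Finite {v // ¬ (v ∈ S.good ∧ chi (S.sg v) = 0)} := (Sys.bad_fin h hchi).to_subtype

theorem finB (h : S.Ok) : Finite {v // v ∉ S.good} := h.good_fin.to_subtype

theorem finMv (h : S.Ok) (hchi : S.HomG chi) (v : Pl) : Finite (S.Mv chi v) :=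
  (h.fin_inv chi hchi v).to_subtype

/-- The constant `K` for the W-cocycles. -/
noncomputable def KT (S : Sys G V V1 Pl) (chi : G → ZMod 2) : ℕ :=
  Nat.card (∀ v : {v // ¬ (v ∈ S.good ∧ chi (S.sg v) = 0)}, S.Mv chi (v : Pl))

/-- The constant `K` for the rigid elements. -/
noncomputable def KB (S : Sys G V V1 Pl) (chi : G → ZMod 2) : ℕ :=
  Nat.card (∀ v : {v // v ∉ S.good}, S.Mv chi (v : Pl))

/-- The degree is unramified at the good places. -/
def DegU (S : Sys G V V1 Pl) (dg : ℕ → G → ℕ) : Prop :=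
  ∀ v ∈ S.good, ∀ m, dg m (S.sg v) ≡ 0 [MOD 2 ^ m]

/-- The difference of two W-cocycles with the same `x` and, at the exceptional places, the same
local point `Q`, is a Selmer cocycle. -/
theorem wsel_sub (h : S.Ok) (hd : IsDeg dg) (hU : DegU S dg) (hchi : S.HomG chi) {j : ℕ}
    {x y y' : G → V} (hw : IsWSel S dg chi j x y) (hw' : IsWSel S dg chi j x y')
    (hQ : ∀ v, ¬ (v ∈ S.good ∧ chi (S.sg v) = 0) → ∃ Q R R' : V, ∀ s ∈ S.D v,
      y s = dl chi R s + ds dg s (tw chi s Q) ∧ y' s = dl chi R' s + ds dg s (tw chi s Q)) :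
    S.IsSel chi j (y - y') := by
  have hcoc : ∀ s t, (y - y') (s * t) = (y - y') s + tw chi s ((y - y') t) := fun s t => by
    rw [Pi.sub_apply, Pi.sub_apply, Pi.sub_apply, hw.ycoc, hw'.ycoc, tw_sub]
    abel
  have hlev : ∀ s, (2 : ℕ) ^ j • (y - y') s = 0 := fun s => by
    rw [Pi.sub_apply, smul_sub, hw.ylev, hw'.ylev, sub_zero]
  have htf : S.TF (y - y') := Sys.TF.comp₂ h hw.ytf hw'.ytf (fun a b => a - b)
  refine ⟨htf, hcoc, hlev, fun v => ?_⟩
  by_cases hv : v ∈ S.good ∧ chi (S.sg v) = 0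
  · rw [Sys.zv_iff_unr h hchi hv.1 hv.2 j ⟨htf.on _, fun s _ t _ => hcoc s t⟩ (fun s _ => hlev s)]
    have key : ∀ (z : G → V), IsWSel S dg chi j x z → z (S.sg v) = 0 := fun z hz => by
      obtain ⟨Q, R, hR⟩ := hz.loc v
      obtain ⟨m, hm⟩ := h.tors Q
      rw [(hR _ (h.sg_mem v)).2, dl_triv' h hv.1 hv.2, zero_add, ds_eq hd _ (tw_lev _ hm),
        nsmul_congr (tw_lev _ hm) (hU v hv.1 m), zero_smul]
    rw [Pi.sub_apply, key y hw, key y' hw', sub_zero]
  · obtain ⟨Q, R, R', hR⟩ := hQ v hv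
    refine ⟨R - R', fun s hs => ?_⟩
    rw [Pi.sub_apply, (hR s hs).1, (hR s hs).2, dl_sub]
    abel
where
  dl_triv' (h : S.Ok) {v : Pl} (hv : v ∈ S.good) (hc : chi (S.sg v) = 0) {R : V} :
      dl chi R (S.sg v) = 0 := by
    rw [dl, tw, hc, h.good_triv v hv]; simp [sgn]

/-- The number of the W-cocycles. -/
theorem card_W_le (h : S.Ok) (hd : IsDeg dg) (hU : DegU S dg) (hchi : S.HomG chi) (j : ℕ)
    (hfin : Finite {x // S.IsSel chi j x}) :
    Finite {p : (G → V) × (G → V) // IsWSel S dg chi j p.1 p.2} ∧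
    Nat.card {p : (G → V) × (G → V) // IsWSel S dg chi j p.1 p.2} ≤
      Nat.card {x : G → V // ∃ y, IsWSel S dg chi j x y} * KT S chi *
        Nat.card {x // S.IsSel chi j x} := by
  classical
  have := finT h hchi
  have := fun v => finMv h hchi v
  let X := {x : G → V // ∃ y, IsWSel S dg chi j x y}
  let B := X × (∀ v : {v // ¬ (v ∈ S.good ∧ chi (S.sg v) = 0)}, S.Mv chi (v : Pl))
  have hXfin : Finite X := by
    refine Finite.of_injective (β := {x // S.IsSel chi j x})
      (fun x => ⟨x.1, x.2.choose_spec.sel⟩) fun x x' hx => ?_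
    exact Subtype.ext (Subtype.mk.inj hx)
  have : Finite B := inferInstance
  -- the choices
  let Q0 : X → Pl → V := fun x v => (x.2.choose_spec.sel.loc v).choose
  have hQ0 : ∀ (x : X) (v : Pl), ∀ s ∈ S.D v, x.1 s = dl chi (Q0 x v) s := fun x v =>
    (x.2.choose_spec.sel.loc v).choose_spec
  let Q1 : {p : (G → V) × (G → V) // IsWSel S dg chi j p.1 p.2} → Pl → V :=
    fun p v => (p.2.loc v).choose
  have hQ1 : ∀ p v, ∃ R : V, ∀ s ∈ S.D v, p.1.1 s = dl chi (Q1 p v) s ∧
      p.1.2 s = dl chi R s + ds dg s (tw chi s (Q1 p v)) := fun p v => (p.2.loc v).choose_spec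
  let xx : {p : (G → V) × (G → V) // IsWSel S dg chi j p.1 p.2} → X := fun p => ⟨p.1.1, p.1.2, p.2⟩
  have hmem : ∀ p v, Q1 p v - Q0 (xx p) v ∈ S.Mv chi v := fun p v s hs => by
    obtain ⟨R, hR⟩ := hQ1 p v
    rw [dl_sub, ← (hR s hs).1, ← hQ0 (xx p) v s hs]
    exact sub_self _
  let F : {p : (G → V) × (G → V) // IsWSel S dg chi j p.1 p.2} → B := fun p =>
    (xx p, fun v => ⟨Q1 p v - Q0 (xx p) v, hmem p v⟩)
  by_cases hne : Nonempty B
  · obtain ⟨b0⟩ := hne
    let f : (G → V) × (G → V) → B := fun p =>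
      if hp : IsWSel S dg chi j p.1 p.2 then F ⟨p, hp⟩ else b0
    let Z : Set ((G → V) × (G → V)) := {p | p.1 = 0 ∧ S.IsSel chi j p.2}
    have eZ : Z ≃ {x // S.IsSel chi j x} :=
      { toFun := fun p => ⟨p.1.2, p.2.2⟩
        invFun := fun x => ⟨(0, x.1), rfl, x.2⟩
        left_inv := fun p => Subtype.ext (Prod.ext p.2.1.symm rfl)
        right_inv := fun x => rfl }
    have : Finite Z := Finite.of_equiv _ eZ.symm
    have key := (card_le_fib {p : (G → V) × (G → V) | IsWSel S dg chi j p.1 p.2} Z f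
      (fun a ha a' ha' haa => by
        have e1 : f a = F ⟨a, ha⟩ := dif_pos ha
        have e2 : f a' = F ⟨a', ha'⟩ := dif_pos ha'
        rw [e1, e2] at haa
        have h1 : a.1 = a'.1 := congrArg (fun p : B => p.1.1) haa
        have h2 : ∀ v, ¬ (v ∈ S.good ∧ chi (S.sg v) = 0) → Q1 ⟨a, ha⟩ v = Q1 ⟨a', ha'⟩ v := by
          intro v hv
          have h3 : Q1 ⟨a, ha⟩ v - Q0 (xx ⟨a, ha⟩) v = Q1 ⟨a', ha'⟩ v - Q0 (xx ⟨a', ha'⟩) v :=
            congrArg (fun p : B => ((p.2 ⟨v, hv⟩ : S.Mv chi v) : V)) haa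
          have h4 : xx ⟨a, ha⟩ = xx ⟨a', ha'⟩ := Subtype.ext h1
          rw [h4] at h3
          exact sub_left_injective h3
        refine ⟨by rw [Prod.fst_sub, h1, sub_self], ?_⟩
        have ha2 : IsWSel S dg chi j a.1 a.2 := ha
        have ha2' : IsWSel S dg chi j a'.1 a'.2 := ha'
        rw [← h1] at ha2'
        refine wsel_sub h hd hU hchi ha2 ha2' fun v hv => ?_
        obtain ⟨R, hR⟩ := hQ1 ⟨a, ha⟩ v
        obtain ⟨R', hR'⟩ := hQ1 ⟨a', ha'⟩ v
        refine ⟨Q1 ⟨a, ha⟩ v, R, R', fun s hs => ⟨(hR s hs).2, ?_⟩⟩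
        rw [h2 v hv]
        exact (hR' s hs).2))
    refine ⟨key.1, ?_⟩
    replace key := key.2
    have e3 : Nat.card Z = Nat.card {x // S.IsSel chi j x} := Nat.card_congr eZ
    rw [e3] at key
    have e4 : Nat.card B = Nat.card X * KT S chi := Nat.card_prod _ _
    rw [e4] at key
    exact key
  · have : IsEmpty {p : (G → V) × (G → V) // IsWSel S dg chi j p.1 p.2} :=
      ⟨fun p => hne ⟨F p⟩⟩
    refine ⟨inferInstance, ?_⟩
    rw [Nat.card_of_isEmpty]
    exact Nat.zero_le _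

/-- The number of the rigid elements. -/
theorem card_Pr_le (h : S.Ok) (hchi : S.HomG chi) (j : ℕ) (hfin : Finite {x // S.IsSel chi j x}) :
    Finite {y | IsPr S chi j y} ∧
    Nat.card {y | IsPr S chi j y} ≤ Nat.card {x // S.IsSel chi j x} * KB S chi := by
  classical
  have := finB h
  have := fun v => finMv h hchi v
  let Z : Set ((G → V) × (Pl → V)) := {p | p.1 = 0 ∧ (∀ v ∈ S.good, p.2 v = 0) ∧
    ∀ v, v ∉ S.good → p.2 v ∈ S.Mv chi v}
  let eZ : Z ≃ (∀ v : {v // v ∉ S.good}, S.Mv chi (v : Pl)) :=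
    { toFun := fun p v => ⟨p.1.2 v, p.2.2.2 v v.2⟩
      invFun := fun w => ⟨(0, fun v => if hv : v ∉ S.good then (w ⟨v, hv⟩ : V) else 0), rfl,
        fun v hv => dif_neg (not_not.mpr hv), fun v hv => by
          have : (if hv : v ∉ S.good then (w ⟨v, hv⟩ : V) else 0) = (w ⟨v, hv⟩ : V) := dif_pos hv
          change (if hv : v ∉ S.good then (w ⟨v, hv⟩ : V) else 0) ∈ S.Mv chi v
          rw [this]
          exact (w ⟨v, hv⟩).2⟩
      left_inv := fun p => Subtype.ext (Prod.ext p.2.1.symm (funext fun v => by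
        by_cases hv : v ∈ S.good
        · simp only [hv, not_true_eq_false, dite_false]
          exact (p.2.2.1 v hv).symm
        · simp only [hv, not_false_eq_true, dite_true]))
      right_inv := fun w => funext fun v => Subtype.ext (by
        simp only [v.2, not_false_eq_true, dite_true]) }
  have : Finite Z := Finite.of_equiv _ eZ.symm
  let f : (G → V) × (Pl → V) → {x // S.IsSel chi j x} := fun p =>
    if hp : S.IsSel chi j p.1 then ⟨p.1, hp⟩ else ⟨0, Sys.IsSel.zero h chi j⟩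
  obtain ⟨h1, h2⟩ := card_le_fib {y | IsPr S chi j y} Z f (fun a ha a' ha' haa => by
    have e1 : f a = ⟨a.1, ha.sel⟩ := dif_pos ha.sel
    have e2 : f a' = ⟨a'.1, ha'.sel⟩ := dif_pos ha'.sel
    rw [e1, e2] at haa
    have h1 : a.1 = a'.1 := congrArg Subtype.val haa
    refine ⟨by rw [Prod.fst_sub, h1, sub_self], fun v hv => ?_, fun v hv s hs => ?_⟩
    · rw [Prod.snd_sub, Pi.sub_apply, ha.off v hv, ha'.off v hv, sub_zero]
    · rw [Prod.snd_sub, Pi.sub_apply, dl_sub, ← ha.loc v hv s hs, ← ha'.loc v hv s hs, h1, sub_self])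
  refine ⟨h1, ?_⟩
  have e3 : Nat.card Z = KB S chi := Nat.card_congr eZ
  rwa [e3] at h2

/-- Every Selmer cocycle is the first component of a rigid element. -/
theorem exists_pr {j : ℕ} {x : G → V} (hx : S.IsSel chi j x) :
    ∃ y, IsPr S chi j y ∧ y.1 = x := by
  classical
  choose Q hQ using hx.loc
  refine ⟨(x, fun v => if v ∈ S.good then 0 else Q v), ⟨hx, fun v hv s hs => ?_, fun v hv => ?_⟩, rfl⟩
  · change x s = dl chi (if v ∈ S.good then 0 else Q v) s
    rw [if_neg hv]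
    exact hQ v s hs
  · exact if_pos hv

end Pool.Agent.SmH
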